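import Pool.Agent.H20.TQ.PAIR

/-! Blocks of hash functions. -/

set_option autoImplicit false

namespace Pool.TQ
open Finset Pool.TQ.PAIR

theorem block : S_BLOCK := by
  classical
  intro a g T hT
  have h1 : ((bits (g * hbits a)).filter fun x => ∀ h ∈ cut g (hbits a) x, h ∉ T) =
      (bits (g * hbits a)).filter fun x => ∀ j < g, (x.drop (j * hbits a)).take (hbits a) ∉ T := by
    apply filter_congr
    intro x _
    unfold cut
    simp only [List.mem_map, List.mem_range, forall_exists_index, and_imp,
      forall_apply_eq_imp_iff₂]
  have h2 := count_rows (hbits a) g (fun _ u => u ∉ T)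
  have h3 : ((bits (hbits a)).filter fun h => h ∉ T).card * 16 ≤ 15 * 2 ^ hbits a := by
    have h4 := Finset.card_filter_add_card_filter_not (s := bits (hbits a)) (fun h => h ∈ T)
    rw [card_bits] at h4
    omega
  have h5 := Nat.pow_le_pow_left h3 g
  rw [mul_pow, mul_pow, ← pow_mul, mul_comm (hbits a) g] at h5
  rw [Finset.prod_const, card_range] at h2
  rw [h1]
  convert h5 using 2

end Pool.TQ
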