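import Pool.Agent.H74.TQ.Stmts

/-! Compression. -/

set_option autoImplicit false

namespace Pool.TQ.COMPR

theorem cut_zero (l : ℕ) (H : List Bool) : cut 0 l H = [] := rfl

theorem cut_succ (s l : ℕ) (H : List Bool) :
    cut (s + 1) l H = H.take l :: cut s l (H.drop l) := by
  unfold cut
  rw [List.range_succ_eq_map, List.map_cons, List.map_map]
  simp only [Nat.zero_mul, List.drop_zero, List.drop_drop, List.cons.injEq, true_and]
  apply List.map_congr_left
  intro j _
  simp only [Function.comp_apply, Nat.succ_eq_add_one]
  rw [show (j + 1) * l = l + j * l by ring]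

theorem length_cut (s l : ℕ) (H : List Bool) : (cut s l H).length = s := by simp [cut]

theorem cut_flatten (s l : ℕ) : ∀ H : List Bool, H.length = s * l → (cut s l H).flatten = H := by
  induction s with
  | zero =>
    intro H h
    rw [Nat.zero_mul, List.length_eq_zero_iff] at h
    rw [cut_zero, h]; rfl
  | succ s ih =>
    intro H h
    rw [cut_succ, List.flatten_cons, ih, List.take_append_drop]
    rw [List.length_drop, h, Nat.succ_mul]; omega

theorem cut_of_flatten (l : ℕ) : ∀ cs : List (List Bool), (∀ c ∈ cs, c.length = l) →
    cut cs.length l cs.flatten = cs := by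
  intro cs
  induction cs with
  | nil => intro _; rfl
  | cons c cs ih =>
    intro h
    have hc := h c (by simp)
    rw [List.length_cons, cut_succ, List.flatten_cons, List.take_left' hc, List.drop_left' hc,
      ih fun c' hc' => h c' (by simp [hc'])]

theorem length_of_mem_cut (s l : ℕ) : ∀ H : List Bool, H.length = s * l → ∀ b ∈ cut s l H,
    b.length = l := by
  induction s with
  | zero => intro H _ b hb; rw [cut_zero] at hb; simp at hb
  | succ s ih =>
    intro H h b hb
    rw [cut_succ, List.mem_cons] at hb
    rw [Nat.succ_mul] at h
    rcases hb with rfl | hb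
    · rw [List.length_take, h]; omega
    · exact ih _ (by rw [List.length_drop, h]; omega) b hb

theorem length_flatten (l : ℕ) : ∀ cs : List (List Bool), (∀ c ∈ cs, c.length = l) →
    cs.flatten.length = cs.length * l := by
  intro cs
  induction cs with
  | nil => intro _; simp
  | cons c cs ih =>
    intro h
    rw [List.flatten_cons, List.length_append, ih fun c' hc' => h c' (by simp [hc']),
      h c (by simp), List.length_cons, Nat.succ_mul]
    ring

theorem xorl_xorl (x : List Bool) : ∀ y : List Bool, x.length = y.length →
    xorl (xorl x y) y = x := by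
  induction x with
  | nil => intro y _; simp [xorl]
  | cons a x ih =>
    intro y h
    cases y with
    | nil => simp at h
    | cons b y =>
      have h1 : xorl (xorl (a :: x) (b :: y)) (b :: y) = xor (xor a b) b :: xorl (xorl x y) y := rfl
      rw [h1, ih y (by simpa using h)]
      cases a <;> cases b <;> rfl

theorem length_xorl (v w : List Bool) (h : v.length = w.length) : (xorl v w).length = v.length := by
  simp [xorl, h]

theorem parse_pad (x : TMLib.D) (pad : List Bool) : TMLib.parse (x.code ++ pad) = x := by
  unfold TMLib.parse
  rw [List.reverse_append, List.foldl_append, TMLib.parse_foldl]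
  rfl

end Pool.TQ.COMPR

namespace Pool.TQ
open TMLib Pool.TQ.COMPR

theorem compr : S_COMPR := by
  classical
  intro hshift S P n H Φ φ hH hΦ hΦs hφ hs hcard
  set a := P.a n with ha
  set g := P.g n with hg
  set s := P.s n with hs'
  set ell := P.ell n with hell
  set p0 := P.p0 n with hp0
  have hell' : ell = g * hbits a := rfl
  have hsn : s = p0 + ell + a + 1 := P.hs n
  have hK : P.K n = p0 + ell + s * ell := rfl
  have hH' : H.length = s * (ell + 1) := by
    rw [hH, hK, mul_add, mul_one]
    omega
  set bs := cut s (ell + 1) H with hbs
  have hblen : ∀ b ∈ bs, b.length = ell + 1 := length_of_mem_cut s (ell + 1) H hH'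
  have hbad : ∀ b ∈ bs, BadBlock S a g Φ φ b.tail := by
    intro b hb h hh
    apply hs
    unfold samples
    rw [List.mem_flatMap]
    exact ⟨b, hb, List.mem_map.2 ⟨h, hh, rfl⟩⟩
  obtain ⟨y, hy, hyb⟩ := hshift ell ((bits ell).filter fun x => BadBlock S a g Φ φ x)
    (bs.map List.tail) (Finset.filter_subset _ _) (by
      intro x hx
      obtain ⟨b, hb, rfl⟩ := List.mem_map.1 hx
      rw [List.length_tail, hblen b hb]; rfl) (by
      rw [List.length_map, hbs, length_cut]; exact hcard)
  let c : List Bool → List Bool := fun b => if b.headD false = false then b.tail else xorl b.tail y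
  have htl : ∀ b ∈ bs, b.tail.length = ell := by
    intro b hb
    rw [List.length_tail, hblen b hb]; rfl
  have hclen : ∀ x ∈ bs.map c, x.length = ell := by
    intro x hx
    obtain ⟨b, hb, rfl⟩ := List.mem_map.1 hx
    simp only [c]
    split_ifs
    · exact htl b hb
    · rw [length_xorl _ _ (by rw [htl b hb, hy]), htl b hb]
  have hcode : (enc (Φ, φ)).code.length ≤ p0 := by
    rw [D.length_code]
    have h1 : (enc (Φ, φ)).size = 1 + sz Φ + sz φ := rfl
    have h2 := sz_list_le Φ (a + 1) n hΦ hΦs
    have h3 := P.hp0 n
    rw [h1]
    have h4 : 1 + (1 + (a + 1) * (1 + n)) + n ≤ p0 := h3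
    nlinarith [h2, h4, hφ]
  obtain ⟨I0, hI0⟩ : ∃ I0, I0 = (enc (Φ, φ)).code ++
    List.replicate (p0 - (enc (Φ, φ)).code.length) false := ⟨_, rfl⟩
  have hI0len : I0.length = p0 := by
    rw [hI0, List.length_append, List.length_replicate]; omega
  refine ⟨I0 ++ (y ++ (bs.map c).flatten), ?_, ?_⟩
  · rw [List.length_append, List.length_append, hI0len, hy, length_flatten ell _ hclen,
      List.length_map, hbs, length_cut, hK]
    ring
  · unfold cstar
    simp only
    rw [← hp0, ← hell, ← hs', ← ha, ← hg]
    have e1 : (I0 ++ (y ++ (bs.map c).flatten)).take p0 = I0 := List.take_left' hI0len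
    have e2 : ((I0 ++ (y ++ (bs.map c).flatten)).drop p0).take ell = y := by
      rw [List.drop_left' hI0len, List.take_left' hy]
    have e3 : (I0 ++ (y ++ (bs.map c).flatten)).drop (p0 + ell) = (bs.map c).flatten := by
      rw [← List.drop_drop, List.drop_left' hI0len, List.drop_left' hy]
    have e4 : (TMLib.Fix.fix (parse I0) : List Form × Form) = (Φ, φ) := by
      rw [hI0, parse_pad, Fix.fix_enc]
    have e5 : cut s ell (bs.map c).flatten = bs.map c := by
      have := cut_of_flatten ell (bs.map c) hclen
      rwa [List.length_map, hbs, length_cut] at this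
    rw [e1, e2, e3, e4, e5, List.flatMap_map]
    have e6 : ∀ b ∈ bs, (if BadBlock S a g Φ φ (c b) then false :: c b
        else true :: xorl (c b) y) = b := by
      intro b hb
      have hbl := hblen b hb
      cases b with
      | nil => simp at hbl
      | cons d x =>
        have hxl : x.length = ell := by simpa using hbl
        cases d with
        | false =>
          have h1 : c (false :: x) = x := by simp [c]
          rw [h1, if_pos (show BadBlock S a g Φ φ x from hbad _ hb)]
        | true =>
          have h1 : c (true :: x) = xorl x y := by simp [c]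
          have h2 : ¬ BadBlock S a g Φ φ (xorl x y) := by
            intro h3
            apply hyb x (List.mem_map.2 ⟨_, hb, rfl⟩)
            rw [Finset.mem_filter, mem_bits]
            exact ⟨by rw [length_xorl x y (by rw [hxl, hy]), hxl], h3⟩
          rw [h1, if_neg h2, xorl_xorl x y (by rw [hxl, hy])]
    rw [List.flatMap_def, List.map_congr_left e6, List.map_id']
    exact cut_flatten s (ell + 1) H hH'

end Pool.TQ
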