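import Pool.Agent.H74.TQ.Stmts

/-! Isolation. -/

set_option autoImplicit false

namespace Pool.TQ
open Finset

theorem iso : S_ISO := by
  classical
  intro hP a V W hWV hVa hVW
  have hW0 : 0 < W.card := by omega
  have hV0 : 0 < V.card := lt_of_lt_of_le hW0 (card_le_card hWV)
  have hV2 : V.card ≤ 2 ^ a := by
    rw [← card_bits a]; exact card_le_card hVa
  set k := Nat.log 2 V.card + 2 with hk
  have hk1 : 2 ^ k ≤ 4 * V.card := by
    have := Nat.pow_log_le_self 2 hV0.ne'
    rw [hk, pow_add]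
    omega
  have hk2 : 2 * V.card < 2 ^ k := by
    have := Nat.lt_pow_succ_log_self (b := 2) (by norm_num) V.card
    rw [hk, pow_succ, ← Nat.succ_eq_add_one]
    rw [Nat.succ_eq_add_one] at this ⊢
    omega
  have hka : k ≤ a + 2 := by
    have : Nat.log 2 V.card ≤ a := by
      calc Nat.log 2 V.card ≤ Nat.log 2 (2 ^ a) := Nat.log_mono_right hV2
        _ = a := Nat.log_pow (by norm_num) a
    omega
  set B := 2 ^ hbits a with hB
  let Z : List Bool → Finset (List Bool) := fun κ =>
    (bits (hbits a)).filter fun h => (hval a h κ).take k = List.replicate k false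
  let A : List Bool → Finset (List Bool) := fun κ =>
    (Z κ).filter fun h => ∀ κ' ∈ V, (hval a h κ').take k = List.replicate k false → κ' = κ
  have hZ : ∀ κ ∈ V, (Z κ).card * 2 ^ k = B := fun κ hκ =>
    hP.one a k κ ((mem_bits a κ).1 (hVa hκ)) hka
  have hZZ : ∀ κ ∈ V, ∀ κ' ∈ V, κ ≠ κ' →
      ((bits (hbits a)).filter fun h => (hval a h κ).take k = List.replicate k false ∧
        (hval a h κ').take k = List.replicate k false).card * 4 ^ k = B := fun κ hκ κ' hκ' hne =>
    hP.two a k κ κ' ((mem_bits a κ).1 (hVa hκ)) ((mem_bits a κ').1 (hVa hκ')) hne hka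
  have hA : ∀ κ ∈ W, B ≤ 2 * 2 ^ k * (A κ).card := by
    intro κ hκ
    have hκV := hWV hκ
    have h1 : Z κ ⊆ A κ ∪ (V.erase κ).biUnion fun κ' =>
        (bits (hbits a)).filter fun h => (hval a h κ).take k = List.replicate k false ∧
          (hval a h κ').take k = List.replicate k false := by
      intro h hh
      rw [mem_union]
      by_cases hA : h ∈ A κ
      · exact Or.inl hA
      · right
        have h2 : ¬ (h ∈ Z κ ∧ ∀ κ' ∈ V, (hval a h κ').take k = List.replicate k false → κ' = κ) := by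
          intro h3; exact hA (mem_filter.2 h3)
        rw [not_and] at h2
        have h3 := h2 hh
        push Not at h3
        obtain ⟨κ', hκ', hz, hne⟩ := h3
        rw [mem_biUnion]
        refine ⟨κ', mem_erase.2 ⟨hne, hκ'⟩, ?_⟩
        have hh' := mem_filter.1 hh
        exact mem_filter.2 ⟨hh'.1, hh'.2, hz⟩
    have h2 := (card_le_card h1).trans ((card_union_le _ _).trans
      (Nat.add_le_add_left card_biUnion_le _))
    have h3 : (∑ κ' ∈ V.erase κ, ((bits (hbits a)).filter fun h =>
        (hval a h κ).take k = List.replicate k false ∧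
          (hval a h κ').take k = List.replicate k false).card) * 4 ^ k = (V.card - 1) * B := by
      rw [Finset.sum_mul, Finset.sum_congr rfl (g := fun _ => B)]
      · rw [Finset.sum_const, card_erase_of_mem hκV, smul_eq_mul]
      · intro κ' hκ'
        rw [mem_erase] at hκ'
        exact hZZ κ hκV κ' hκ'.2 (Ne.symm hκ'.1)
    have h4 := Nat.mul_le_mul_right (4 ^ k) h2
    rw [add_mul, h3] at h4
    have h5 : (4 : ℕ) ^ k = 2 ^ k * 2 ^ k := by
      rw [← mul_pow]; norm_num
    rw [h5, ← mul_assoc, hZ κ hκV, ← mul_assoc] at h4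
    have hpos : 0 < 2 ^ k := by positivity
    have h6 : B * 2 ^ k ≤ (2 * 2 ^ k * (A κ).card) * 2 ^ k := by
      have h7 : 2 * ((V.card - 1) * B) ≤ B * 2 ^ k := by
        calc 2 * ((V.card - 1) * B) = (2 * (V.card - 1)) * B := by ring
          _ ≤ 2 ^ k * B := Nat.mul_le_mul_right _ (by omega)
          _ = _ := mul_comm _ _
      have h8 : (2 * 2 ^ k * (A κ).card) * 2 ^ k = 2 * ((A κ).card * 2 ^ k * 2 ^ k) := by ring
      rw [h8]
      omega
    exact Nat.le_of_mul_le_mul_right h6 hpos
  have hsub : W.biUnion A ⊆ (bits (hbits a)).filter fun h => ∃ k ≤ a + 2, ∃ κ ∈ W,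
      (hval a h κ).take k = List.replicate k false ∧
      ∀ κ' ∈ V, (hval a h κ').take k = List.replicate k false → κ' = κ := by
    intro h hh
    rw [mem_biUnion] at hh
    obtain ⟨κ, hκ, hh⟩ := hh
    have h1 := mem_filter.1 hh
    have h2 := mem_filter.1 h1.1
    exact mem_filter.2 ⟨h2.1, k, hka, κ, hκ, h2.2, h1.2⟩
  have hdisj : ∀ κ ∈ W, ∀ κ' ∈ W, κ ≠ κ' → Disjoint (A κ) (A κ') := by
    intro κ hκ κ' hκ' hne
    rw [Finset.disjoint_left]
    intro h h1 h2
    have e1 := mem_filter.1 h1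
    have e2 := mem_filter.1 h2
    have e3 := mem_filter.1 e2.1
    exact hne (e1.2 κ' (hWV hκ') e3.2).symm
  have hcard := card_le_card hsub
  rw [card_biUnion hdisj] at hcard
  have hsum : W.card * B ≤ 2 * 2 ^ k * ∑ κ ∈ W, (A κ).card := by
    rw [Finset.mul_sum, ← smul_eq_mul, ← Finset.sum_const]
    exact Finset.sum_le_sum hA
  have hpos : 0 < 2 ^ k := by positivity
  have h9 : 2 ^ k * B ≤ 2 ^ k * (16 * ∑ κ ∈ W, (A κ).card) := by
    calc 2 ^ k * B ≤ (8 * W.card) * B := Nat.mul_le_mul_right _ (by omega)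
      _ = 8 * (W.card * B) := by ring
      _ ≤ 8 * (2 * 2 ^ k * ∑ κ ∈ W, (A κ).card) := Nat.mul_le_mul_left _ hsum
      _ = _ := by ring
  have h10 := Nat.le_of_mul_le_mul_left h9 hpos
  exact h10.trans (Nat.mul_le_mul_left _ hcard)

end Pool.TQ
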