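import Pool.Agent.H74.TQ.Stmts

/-! Pairwise independence of the hash functions. -/

set_option autoImplicit false

namespace Pool.TQ.PAIR

open Finset

theorem ip_foldl (l : List (Bool × Bool)) : ∀ s : Bool,
    l.foldl (fun s p => xor s (p.1 && p.2)) s =
      xor s (l.foldl (fun s p => xor s (p.1 && p.2)) false) := by
  induction l with
  | nil => intro s; simp
  | cons p l ih =>
    intro s
    rw [List.foldl_cons, List.foldl_cons, ih (xor s (p.1 && p.2)), ih (xor false (p.1 && p.2))]
    simp

theorem ip_cons (a b : Bool) (u v : List Bool) :
    ip (a :: u) (b :: v) = xor (a && b) (ip u v) := by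
  unfold ip
  rw [List.zip_cons_cons, List.foldl_cons, ip_foldl]
  simp

theorem ip_nil (u : List Bool) : ip u [] = false := by simp [ip]

theorem ip_nil' (u : List Bool) : ip [] u = false := by simp [ip]

theorem card_bits_succ (N : ℕ) (Q : List Bool → Prop) [DecidablePred Q] :
    ((bits (N + 1)).filter Q).card = ((bits N).filter fun u => Q (false :: u)).card +
      ((bits N).filter fun u => Q (true :: u)).card := by
  classical
  have h : (bits (N + 1)).filter Q = (((bits N).filter fun u => Q (false :: u)).image
      (fun u => false :: u)) ∪ (((bits N).filter fun u => Q (true :: u)).image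
      (fun u => true :: u)) := by
    ext l
    simp only [mem_filter, mem_union, mem_image, mem_bits]
    constructor
    · rintro ⟨h1, h2⟩
      cases l with
      | nil => simp at h1
      | cons b l =>
        cases b with
        | false => exact Or.inl ⟨l, ⟨by simpa using h1, h2⟩, rfl⟩
        | true => exact Or.inr ⟨l, ⟨by simpa using h1, h2⟩, rfl⟩
    · rintro (⟨u, ⟨h1, h2⟩, rfl⟩ | ⟨u, ⟨h1, h2⟩, rfl⟩)
      · exact ⟨by simpa using h1, h2⟩
      · exact ⟨by simpa using h1, h2⟩
  rw [h, card_union_of_disjoint, card_image_of_injective, card_image_of_injective]
  · intro u v h; simpa using h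
  · intro u v h; simpa using h
  · rw [Finset.disjoint_left]
    intro l h1 h2
    rw [mem_image] at h1 h2
    obtain ⟨u, -, rfl⟩ := h1
    obtain ⟨v, -, h3⟩ := h2
    simp at h3

/-- splitting a bit string -/
theorem card_bits_add (m n : ℕ) (Q R : List Bool → Prop) [DecidablePred Q] [DecidablePred R] :
    ((bits (m + n)).filter fun h => Q (h.take m) ∧ R (h.drop m)).card =
      ((bits m).filter Q).card * ((bits n).filter R).card := by
  classical
  rw [← card_product]
  refine Finset.card_nbij' (fun h => (h.take m, h.drop m)) (fun p => p.1 ++ p.2) ?_ ?_ ?_ ?_
  · intro h hh
    simp only [coe_filter, Set.mem_ofPred_eq, mem_bits, coe_product, Set.mem_prod] at hh ⊢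
    refine ⟨⟨?_, hh.2.1⟩, ?_, hh.2.2⟩
    · rw [List.length_take, hh.1]; omega
    · rw [List.length_drop, hh.1]; omega
  · rintro ⟨u, v⟩ hh
    simp only [coe_filter, Set.mem_ofPred_eq, mem_bits, coe_product, Set.mem_prod] at hh ⊢
    refine ⟨?_, ?_, ?_⟩
    · rw [List.length_append, hh.1.1, hh.2.1]
    · rw [← hh.1.1, List.take_left']
      · exact hh.1.2
      · rfl
    · rw [← hh.1.1, List.drop_left']
      · exact hh.2.2
      · rfl
  · intro h _
    exact List.take_append_drop m h
  · rintro ⟨u, v⟩ hh
    simp only [coe_filter, Set.mem_ofPred_eq, mem_bits, coe_product, Set.mem_prod] at hh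
    simp only [Prod.mk.injEq]
    exact ⟨List.take_left' hh.1.1, List.drop_left' hh.1.1⟩

theorem count_rows (N : ℕ) : ∀ (r : ℕ) (P : ℕ → List Bool → Prop) [∀ j, DecidablePred (P j)],
    ((bits (r * N)).filter fun h => ∀ j < r, P j ((h.drop (j * N)).take N)).card =
      ∏ j ∈ range r, ((bits N).filter (P j)).card := by
  intro r
  induction r with
  | zero =>
    intro P _
    simp [card_bits]
  | succ r ih =>
    intro P _
    have key := card_bits_add N (r * N) (P 0) (fun h => ∀ j < r, P (j + 1) ((h.drop (j * N)).take N))
    have h1 : (r + 1) * N = N + r * N := by ring
    rw [Finset.prod_range_succ', ← ih (fun j => P (j + 1)), h1,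
      mul_comm (Finset.card _) (Finset.card _), ← key]
    congr 1
    apply filter_congr
    intro h hh
    constructor
    · intro H
      refine ⟨by simpa using H 0 (by omega), fun j hj => ?_⟩
      have := H (j + 1) (by omega)
      rw [List.drop_drop]
      rw [show (j + 1) * N = N + j * N by ring] at this
      exact this
    · rintro ⟨H0, H⟩ j hj
      cases j with
      | zero => simpa using H0
      | succ j =>
        have := H j (by omega)
        rw [List.drop_drop] at this
        rw [show (j + 1) * N = N + j * N by ring]
        exact this

theorem count_one (v : List Bool) (hv : true ∈ v) : ∀ s : Bool,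
    ((bits v.length).filter fun u => ip u v = s).card * 2 = 2 ^ v.length := by
  classical
  induction v with
  | nil => simp at hv
  | cons b v ih =>
    intro s
    rw [List.length_cons, card_bits_succ]
    simp only [ip_cons]
    cases b with
    | false =>
      have hv' : true ∈ v := by simpa using hv
      simp only [Bool.and_false, Bool.false_xor]
      have := ih hv' s
      rw [pow_succ, ← this]; ring
    | true =>
      simp only [Bool.and_true, Bool.false_xor]
      have h1 : ((bits v.length).filter fun u => ip u v = s).card +
          ((bits v.length).filter fun u => xor true (ip u v) = s).card = 2 ^ v.length := by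
        have h2 : ((bits v.length).filter fun u => xor true (ip u v) = s) =
            ((bits v.length).filter fun u => ¬ ip u v = s) := by
          apply filter_congr
          intro u _
          cases ip u v <;> cases s <;> simp
        rw [h2, Finset.card_filter_add_card_filter_not, card_bits]
      rw [h1, pow_succ]

theorem ip_xorl (v : List Bool) : ∀ (w u : List Bool), v.length = w.length →
    ip u (xorl v w) = xor (ip u v) (ip u w) := by
  induction v with
  | nil =>
    intro w u h
    have : w = [] := by
      rw [← List.length_eq_zero_iff, ← h]; rfl
    subst this
    simp [xorl, ip_nil]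
  | cons b v ih =>
    intro w u h
    cases w with
    | nil => simp at h
    | cons b' w =>
      cases u with
      | nil => simp [ip_nil']
      | cons a u =>
        have h1 : xorl (b :: v) (b' :: w) = xor b b' :: xorl v w := rfl
        rw [h1, ip_cons, ip_cons, ip_cons, ih w u (by simpa using h)]
        cases a <;> cases b <;> cases b' <;> cases ip u v <;> cases ip u w <;> rfl

theorem length_xorl (v w : List Bool) (h : v.length = w.length) : (xorl v w).length = v.length := by
  simp [xorl, h]

theorem true_mem_xorl (v : List Bool) : ∀ w : List Bool, v.length = w.length → v ≠ w →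
    true ∈ xorl v w := by
  induction v with
  | nil =>
    intro w h hne
    exfalso
    apply hne
    symm
    rw [← List.length_eq_zero_iff, ← h]; rfl
  | cons b v ih =>
    intro w h hne
    cases w with
    | nil => simp at h
    | cons b' w =>
      have h1 : xorl (b :: v) (b' :: w) = xor b b' :: xorl v w := rfl
      rw [h1]
      by_cases hb : b = b'
      · subst hb
        have : v ≠ w := fun h2 => hne (by rw [h2])
        exact List.mem_cons_of_mem _ (ih w (by simpa using h) this)
      · have : xor b b' = true := by cases b <;> cases b' <;> simp_all
        rw [this]
        exact List.mem_cons_self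

theorem count_two (v : List Bool) : ∀ w : List Bool, v.length = w.length → true ∈ v → true ∈ w →
    v ≠ w → ∀ s t : Bool,
    ((bits v.length).filter fun u => ip u v = s ∧ ip u w = t).card * 4 = 2 ^ v.length := by
  classical
  induction v with
  | nil => intro w _ hv; simp at hv
  | cons b v ih =>
    intro w hl hv hw hne s t
    cases w with
    | nil => simp at hl
    | cons b' w =>
      have hl' : v.length = w.length := by simpa using hl
      rw [List.length_cons, card_bits_succ]
      simp only [ip_cons]
      cases b with
      | false =>
        cases b' with
        | false =>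
          have hv' : true ∈ v := by simpa using hv
          have hw' : true ∈ w := by simpa using hw
          have hne' : v ≠ w := fun h => hne (by rw [h])
          simp only [Bool.and_false, Bool.false_xor]
          have := ih w hl' hv' hw' hne' s t
          rw [pow_succ, ← this]; ring
        | true =>
          have hv' : true ∈ v := by simpa using hv
          simp only [Bool.and_false, Bool.and_true, Bool.false_xor]
          have h1 : ((bits v.length).filter fun u => ip u v = s ∧ ip u w = t).card +
              ((bits v.length).filter fun u => ip u v = s ∧ xor true (ip u w) = t).card =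
              ((bits v.length).filter fun u => ip u v = s).card := by
            have h2 : ((bits v.length).filter fun u => ip u v = s ∧ xor true (ip u w) = t) =
                ((bits v.length).filter fun u => ip u v = s ∧ ¬ ip u w = t) := by
              apply filter_congr
              intro u _
              cases ip u w <;> cases t <;> simp
            rw [h2, ← filter_filter, ← filter_filter, Finset.card_filter_add_card_filter_not]
          have h3 := count_one v hv' s
          rw [h1, pow_succ, ← h3]; ring
      | true =>
        cases b' with
        | false =>
          have hw' : true ∈ w := by simpa using hw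
          simp only [Bool.and_false, Bool.and_true, Bool.false_xor]
          have h1 : ((bits v.length).filter fun u => ip u v = s ∧ ip u w = t).card +
              ((bits v.length).filter fun u => xor true (ip u v) = s ∧ ip u w = t).card =
              ((bits v.length).filter fun u => ip u w = t).card := by
            have h2 : ((bits v.length).filter fun u => xor true (ip u v) = s ∧ ip u w = t) =
                ((bits v.length).filter fun u => ip u w = t ∧ ¬ ip u v = s) := by
              apply filter_congr
              intro u _
              cases ip u v <;> cases s <;> simp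
            have h2' : ((bits v.length).filter fun u => ip u v = s ∧ ip u w = t) =
                ((bits v.length).filter fun u => ip u w = t ∧ ip u v = s) := by
              apply filter_congr
              intro u _
              exact and_comm
            rw [h2, h2', ← filter_filter, ← filter_filter, Finset.card_filter_add_card_filter_not]
          have h3 := count_one w hw' t
          rw [h1, pow_succ, hl', ← h3]; ring
        | true =>
          have hne' : v ≠ w := fun h => hne (by rw [h])
          simp only [Bool.and_true, Bool.false_xor]
          have h1 : ((bits v.length).filter fun u => ip u v = s ∧ ip u w = t).card +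
              ((bits v.length).filter fun u => xor true (ip u v) = s ∧ xor true (ip u w) = t).card =
              ((bits v.length).filter fun u => ip u (xorl v w) = xor s t).card := by
            rw [← card_union_of_disjoint, ← filter_or]
            · congr 1
              apply filter_congr
              intro u _
              rw [ip_xorl v w u hl']
              cases ip u v <;> cases ip u w <;> cases s <;> cases t <;> simp
            · rw [Finset.disjoint_filter]
              intro u _ h2 h3
              rw [h2.1] at h3
              cases s <;> simp at h3
          have h3 := count_one (xorl v w) (true_mem_xorl v w hl' hne') (xor s t)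
          rw [length_xorl v w hl'] at h3
          rw [h1, pow_succ, ← h3]; ring

theorem take_hval (a k : ℕ) (hk : k ≤ a + 2) (h κ : List Bool) :
    (hval a h κ).take k = List.replicate k false ↔
      ∀ j < a + 2, j < k → ip ((h.drop (j * (a + 1))).take (a + 1)) (κ ++ [true]) = false := by
  unfold hval
  rw [← List.map_take, List.take_range, min_eq_left hk, List.eq_replicate_iff]
  simp only [List.length_map, List.length_range, List.mem_map, List.mem_range, true_and,
    forall_exists_index, and_imp, forall_apply_eq_imp_iff₂]
  constructor
  · intro H j _ hj
    exact H j hj
  · intro H j hj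
    exact H j (by omega) hj

theorem prod_split (r k A B : ℕ) (hk : k ≤ r) :
    ∏ j ∈ range r, (if j < k then A else B) = A ^ k * B ^ (r - k) := by
  obtain ⟨m, rfl⟩ := Nat.exists_eq_add_of_le hk
  rw [Finset.prod_range_add, Nat.add_sub_cancel_left]
  congr 1
  · rw [Finset.prod_congr rfl (g := fun _ => A)]
    · simp
    · intro j hj
      rw [if_pos (mem_range.1 hj)]
  · rw [Finset.prod_congr rfl (g := fun _ => B)]
    · simp
    · intro j _
      rw [if_neg (by omega)]

end Pool.TQ.PAIR

namespace Pool.TQ
open Finset Pool.TQ.PAIR

theorem pair : S_PAIR := by
  classical
  constructor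
  · intro a k κ hκ hk
    have h1 : ((bits (hbits a)).filter fun h => (hval a h κ).take k = List.replicate k false) =
        (bits ((a + 2) * (a + 1))).filter fun h => ∀ j < a + 2,
          (j < k → ip ((h.drop (j * (a + 1))).take (a + 1)) (κ ++ [true]) = false) := by
      unfold hbits
      apply filter_congr
      intro h _
      exact take_hval a k hk h κ
    rw [h1, count_rows (a + 1) (a + 2) (fun j u => j < k → ip u (κ ++ [true]) = false)]
    have hlen : (κ ++ [true]).length = a + 1 := by simp [hκ]
    have hc := count_one (κ ++ [true]) (by simp) false
    rw [hlen] at hc
    have h2 : ∀ j ∈ range (a + 2), ((bits (a + 1)).filter fun u => j < k →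
        ip u (κ ++ [true]) = false).card = if j < k then 2 ^ a else 2 ^ (a + 1) := by
      intro j _
      split_ifs with hj
      · rw [pow_succ] at hc
        have : ((bits (a + 1)).filter fun u => j < k → ip u (κ ++ [true]) = false) =
            ((bits (a + 1)).filter fun u => ip u (κ ++ [true]) = false) := by
          apply filter_congr
          intro u _
          simp [hj]
        rw [this]
        omega
      · rw [filter_true_of_mem (fun u _ h => absurd h hj), card_bits]
    rw [Finset.prod_congr rfl h2, prod_split _ _ _ _ hk, hbits]
    obtain ⟨m, hm⟩ := Nat.exists_eq_add_of_le hk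
    rw [hm, Nat.add_sub_cancel_left, ← pow_mul, ← pow_mul, ← pow_add, ← pow_add]
    congr 1
    ring
  · intro a k κ κ' hκ hκ' hne hk
    have h1 : ((bits (hbits a)).filter fun h => (hval a h κ).take k = List.replicate k false ∧
        (hval a h κ').take k = List.replicate k false) =
        (bits ((a + 2) * (a + 1))).filter fun h => ∀ j < a + 2,
          (j < k → ip ((h.drop (j * (a + 1))).take (a + 1)) (κ ++ [true]) = false ∧
            ip ((h.drop (j * (a + 1))).take (a + 1)) (κ' ++ [true]) = false) := by
      unfold hbits
      apply filter_congr
      intro h _
      rw [take_hval a k hk h κ, take_hval a k hk h κ']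
      constructor
      · rintro ⟨H1, H2⟩ j hj hjk
        exact ⟨H1 j hj hjk, H2 j hj hjk⟩
      · intro H
        exact ⟨fun j hj hjk => (H j hj hjk).1, fun j hj hjk => (H j hj hjk).2⟩
    rw [h1, count_rows (a + 1) (a + 2) (fun j u => j < k → ip u (κ ++ [true]) = false ∧
      ip u (κ' ++ [true]) = false)]
    have hlen : (κ ++ [true]).length = a + 1 := by simp [hκ]
    have hc := count_two (κ ++ [true]) (κ' ++ [true]) (by simp [hκ, hκ']) (by simp) (by simp)
      (fun h => hne (by simpa using h)) false false
    rw [hlen] at hc
    by_cases ha : a = 0
    · subst ha
      exfalso
      apply hne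
      rw [List.length_eq_zero_iff] at hκ hκ'
      rw [hκ, hκ']
    obtain ⟨a', rfl⟩ := Nat.exists_eq_succ_of_ne_zero ha
    have h2 : ∀ j ∈ range (a' + 1 + 2), ((bits (a' + 1 + 1)).filter fun u => j < k →
        ip u (κ ++ [true]) = false ∧ ip u (κ' ++ [true]) = false).card =
          if j < k then 2 ^ a' else 2 ^ (a' + 1 + 1) := by
      intro j _
      split_ifs with hj
      · rw [Nat.succ_eq_add_one, pow_succ, pow_succ] at hc
        have : ((bits (a' + 1 + 1)).filter fun u => j < k → ip u (κ ++ [true]) = false ∧
            ip u (κ' ++ [true]) = false) =
            ((bits (a' + 1 + 1)).filter fun u => ip u (κ ++ [true]) = false ∧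
            ip u (κ' ++ [true]) = false) := by
          apply filter_congr
          intro u _
          simp [hj]
        rw [this]
        omega
      · rw [filter_true_of_mem (fun u _ h => absurd h hj), card_bits]
    rw [Nat.succ_eq_add_one, Finset.prod_congr rfl h2, prod_split _ _ _ _ hk, hbits]
    obtain ⟨m, hm⟩ := Nat.exists_eq_add_of_le hk
    rw [Nat.succ_eq_add_one] at hm
    rw [hm, Nat.add_sub_cancel_left, show (4 : ℕ) = 2 ^ 2 by norm_num, ← pow_mul, ← pow_mul,
      ← pow_mul, ← pow_add, ← pow_add]
    congr 1
    ring

end Pool.TQ
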